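import Pool.Agent.X248.Cost.Final

namespace Pool.Agent.Results.MP_ff3c98_co.BoundedCost

variable {V : Type} [Fintype V] [DecidableEq V]

/-- `σ` is an automorphism of the graph `G` -/
def IsAut (G : SimpleGraph V) (σ : Equiv.Perm V) : Prop :=
  ∀ u v, G.Adj (σ u) (σ v) ↔ G.Adj u v

/-- a colouring with (at most) two colours is distinguishing if only the identity preserves it -/
def Distinguishing (G : SimpleGraph V) (c : V → Bool) : Prop :=
  ∀ σ : Equiv.Perm V, IsAut G σ → (∀ v, c (σ v) = c v) → σ = 1

/-- `G` is 2-distinguishable -/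
def TwoDistinguishable (G : SimpleGraph V) : Prop := ∃ c : V → Bool, Distinguishing G c

/-- `S` is a determining set of `G` -/
def Determining (G : SimpleGraph V) (S : Finset V) : Prop :=
  ∀ σ : Equiv.Perm V, IsAut G σ → (∀ v ∈ S, σ v = v) → σ = 1

/-- the determining number `Det(G)` -/
noncomputable def det (G : SimpleGraph V) : ℕ :=
  sInf {k | ∃ S : Finset V, Determining G S ∧ S.card = k}

/-- `S` is a colour class of some distinguishing 2-colouring -/
def DistClass (G : SimpleGraph V) (S : Finset V) : Prop :=
  ∃ c : V → Bool, Distinguishing G c ∧ ∃ i : Bool, ∀ v, v ∈ S ↔ c v = i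

/-- the cost number `ρ(G)` -/
noncomputable def cost (G : SimpleGraph V) : ℕ :=
  sInf {k | ∃ S : Finset V, DistClass G S ∧ S.card = k}

/-- The explicit constant `C(d) = 2^(2^(d+6) d) + 2^(2^(d+6))`. -/
def C (d : ℕ) : ℕ := 2 ^ (2 ^ (d + 6) * d) + 2 ^ (2 ^ (d + 6))

/-- The infimum defining `Det(G)` is attained. -/
theorem exists_det (G : SimpleGraph V) : ∃ S : Finset V, Determining G S ∧ S.card = det G :=
  Nat.sInf_mem (s := {k | ∃ S : Finset V, Determining G S ∧ S.card = k})
    ⟨_, Finset.univ, fun σ _ h => Equiv.ext fun v => h v (Finset.mem_univ v), rfl⟩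

/-- For every `d`, the cost number of every 2-distinguishable finite graph with determining
number `d` is at most `C(d)`; in particular, for no `d` can the cost number be arbitrarily far
from the determining number `d`. -/
theorem result :
    (∀ (d : ℕ) (V : Type) [Fintype V] [DecidableEq V] (G : SimpleGraph V),
      TwoDistinguishable G → det G = d → cost G ≤ C d) ∧
    (∀ d : ℕ, ¬ ∀ N : ℕ, ∃ (n : ℕ) (G : SimpleGraph (Fin n)),
      TwoDistinguishable G ∧ det G = d ∧ d + N ≤ cost G) := by
  have main : ∀ (d : ℕ) (V : Type) [Fintype V] [DecidableEq V] (G : SimpleGraph V),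
      TwoDistinguishable G → det G = d → cost G ≤ C d := by
    classical
    intro d V _ _ G hG hd
    obtain ⟨c, hc⟩ := hG
    obtain ⟨B, hB, hBc⟩ := exists_det G
    rw [hd] at hBc
    let H : Finset (Equiv.Perm V) := Finset.univ.filter (fun σ => IsAut G σ)
    have hmem : ∀ σ, σ ∈ H ↔ IsAut G σ := fun σ => by simp [H]
    have hH : X248.Cost.Gp H := by
      refine ⟨(hmem _).2 (fun u v => Iff.rfl), ?_, ?_⟩
      · intro a ha b hb
        rw [hmem] at *
        intro u v
        simp only [Equiv.Perm.coe_mul, Function.comp_apply]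
        rw [ha, hb]
      · intro a ha
        rw [hmem] at *
        intro u v
        have h1 := ha (a⁻¹ u) (a⁻¹ v)
        have h2 : ∀ w, a (a⁻¹ w) = w := fun w => by simp
        rw [h2, h2] at h1
        exact h1.symm
    obtain ⟨T, hTc, hT⟩ := X248.Cost.main H hH B (fun h hh hb => hB h ((hmem h).1 hh) hb)
      (Finset.univ.filter (fun v => c v = true)) (by
        intro h hh hi
        apply hc h ((hmem h).1 hh)
        intro v
        have := hi v
        simp only [Finset.mem_filter, Finset.mem_univ, true_and] at this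
        exact Bool.eq_iff_iff.2 this)
    rw [hBc] at hTc
    refine le_trans (Nat.sInf_le ⟨T, ⟨fun v => decide (v ∈ T), ?_, true, ?_⟩, rfl⟩) hTc
    · intro σ hσ hpres
      apply hT σ ((hmem σ).2 hσ)
      intro y
      have := hpres y
      simpa using this
    · intro v; simp
  refine ⟨main, ?_⟩
  intro d h
  obtain ⟨n, G, h1, h2, h3⟩ := h (C d + 1)
  have := main d (Fin n) G h1 h2
  omega

end Pool.Agent.Results.MP_ff3c98_co.BoundedCost
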